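import Mathlib

set_option autoImplicit false

namespace Pool.Agent.Results.MP_ad6ded_lc.NotAutomatic

/-- `xw n` is the word x_{n+1} of the problem: x_1 = 12, x_{n+1} = x_n x_n x_n^R x_n^R 2. -/
def xw : ℕ → List ℕ
  | 0 => [1, 2]
  | n + 1 => xw n ++ xw n ++ (xw n).reverse ++ (xw n).reverse ++ [2]

/-- The infinite word of the problem: its `i`-th letter (from 0) is the `i`-th letter of
x_{i+1}, a word of length greater than `i`. -/
def seq (i : ℕ) : ℕ := (xw i).getD i 0

/-- The `k`-kernel of a sequence `a`: all subsequences n ↦ a (k^e n + j) with j < k^e. -/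
def kernel (k : ℕ) (a : ℕ → ℕ) : Set (ℕ → ℕ) :=
  {s | ∃ e j : ℕ, j < k ^ e ∧ s = fun n => a (k ^ e * n + j)}

def y : ℕ → List ℕ
  | 0 => [1]
  | n + 1 => y n ++ 2 :: (y n ++ 2 :: 2 :: (y n ++ 2 :: y n))

lemma y_rev (n : ℕ) : (y n).reverse = y n := by
  induction n with
  | zero => rfl
  | succ n ih => simp [y, List.reverse_append, ih]

lemma xw_eq (n : ℕ) : xw n = y n ++ [2] := by
  induction n with
  | zero => rfl
  | succ n ih => simp [xw, y, ih, List.reverse_append, y_rev]

lemma y_len (n : ℕ) : n + 1 ≤ (y n).length := by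
  induction n with
  | zero => simp [y]
  | succ n ih => simp [y]; omega

def Occ (a : ℕ → ℕ) (n P : ℕ) : Prop := ∀ i, i < (y n).length → (y n)[i]? = some (a (P + i))

lemma occ_step (a : ℕ → ℕ) (n P : ℕ) (h : Occ a (n + 1) P) :
    Occ a n P ∧ Occ a n (P + ((y n).length + 1)) ∧ Occ a n (P + (2 * ((y n).length + 1) + 1)) := by
  refine ⟨fun i hi => ?_, fun i hi => ?_, fun i hi => ?_⟩
  · have := h i (by simp [y]; omega)
    rw [← this]; simp [y, List.getElem?_append_left hi]
  · have := h ((y n).length + 1 + i) (by simp [y]; omega)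
    rw [show P + ((y n).length + 1) + i = P + ((y n).length + 1 + i) by ring, ← this]
    simp only [y]
    rw [List.getElem?_append_right (by omega)]
    rw [show (y n).length + 1 + i - (y n).length = i + 1 by omega, List.getElem?_cons_succ,
      List.getElem?_append_left hi]
  · have := h (2 * ((y n).length + 1) + 1 + i) (by simp [y]; omega)
    rw [show P + (2 * ((y n).length + 1) + 1) + i = P + (2 * ((y n).length + 1) + 1 + i) by ring,
      ← this]
    simp only [y]
    rw [List.getElem?_append_right (by omega)]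
    rw [show 2 * ((y n).length + 1) + 1 + i - (y n).length = ((y n).length + (i + 2)) + 1 by omega,
      List.getElem?_cons_succ, List.getElem?_append_right (by omega)]
    rw [show (y n).length + (i + 2) - (y n).length = i + 1 + 1 by omega, List.getElem?_cons_succ,
      List.getElem?_cons_succ, List.getElem?_append_left hi]

lemma occ_mono (a : ℕ → ℕ) (n d P : ℕ) (h : Occ a (n + d) P) : Occ a n P := by
  induction d with
  | zero => exact h
  | succ d ih => exact ih (occ_step a (n + d) P h).1

lemma occ_res (a : ℕ → ℕ) (h0 : ∀ n, Occ a n 0) (q : ℕ) (hq : 0 < q) (r n : ℕ) :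
    ∃ P, Occ a n P ∧ P ≡ r [MOD q] := by
  obtain ⟨g, hg⟩ : ∃ g : Fin q, ∀ n, ∃ m, n ≤ m ∧ ((y m).length + 1) % q = g := by
    obtain ⟨g, hg⟩ := Finite.exists_infinite_fiber
      (fun m : ℕ => (⟨((y m).length + 1) % q, Nat.mod_lt _ hq⟩ : Fin q))
    refine ⟨g, fun n => ?_⟩
    have hinf : Set.Infinite ((fun m : ℕ => (⟨((y m).length + 1) % q, Nat.mod_lt _ hq⟩ : Fin q)) ⁻¹' {g}) :=
      Set.infinite_coe_iff.mp hg
    obtain ⟨m, hm, hlt⟩ := hinf.exists_gt n
    refine ⟨m, hlt.le, ?_⟩
    have : (⟨((y m).length + 1) % q, Nat.mod_lt _ hq⟩ : Fin q) = g := hm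
    rw [← this]
  have key : ∀ c d n : ℕ, ∃ P, Occ a n P ∧ P ≡ c * g + d * (2 * g + 1) [MOD q] := by
    intro c d
    induction c with
    | zero =>
      induction d with
      | zero => intro n; exact ⟨0, h0 n, by simp [Nat.ModEq]⟩
      | succ d ih =>
        intro n
        obtain ⟨m, hm, hmg⟩ := hg n
        obtain ⟨P, hP, hPm⟩ := ih (m + 1)
        refine ⟨P + (2 * ((y m).length + 1) + 1), ?_, ?_⟩
        · obtain ⟨t, rfl⟩ := Nat.exists_eq_add_of_le hm
          exact occ_mono a n t _ (occ_step a _ P hP).2.2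
        · have h1 : (y m).length + 1 ≡ g [MOD q] := by
            rw [← hmg]; exact (Nat.mod_modEq _ _).symm
          have := hPm.add ((h1.mul_left 2).add_right 1)
          simpa [add_mul] using this
    | succ c ih =>
      intro n
      obtain ⟨m, hm, hmg⟩ := hg n
      obtain ⟨P, hP, hPm⟩ := ih (m + 1)
      refine ⟨P + ((y m).length + 1), ?_, ?_⟩
      · obtain ⟨t, rfl⟩ := Nat.exists_eq_add_of_le hm
        exact occ_mono a n t _ (occ_step a _ P hP).2.1
      · have h1 : (y m).length + 1 ≡ g [MOD q] := by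
          rw [← hmg]; exact (Nat.mod_modEq _ _).symm
        have := hPm.add h1
        rw [show (c + 1) * (g : ℕ) + d * (2 * g + 1) = c * g + d * (2 * g + 1) + g by ring]
        exact this
  obtain ⟨P, hP, hPm⟩ := key ((q - 1) * (2 * r)) r n
  refine ⟨P, hP, hPm.trans ?_⟩
  obtain ⟨q', rfl⟩ : ∃ q', q = q' + 1 := ⟨q - 1, by omega⟩
  rw [show (q' + 1 - 1) * (2 * r) * (g : ℕ) + r * (2 * g + 1) = (q' + 1) * (2 * r * g) + r by
    simp only [Nat.add_sub_cancel]; ring]
  unfold Nat.ModEq
  rw [Nat.mul_add_mod]

lemma xw_prefix (n d : ℕ) : xw n <+: xw (n + d) := by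
  induction d with
  | zero => exact List.prefix_rfl
  | succ d ih =>
    refine ih.trans ?_
    rw [← add_assoc]
    simp only [xw, List.append_assoc]
    exact List.prefix_append _ _

theorem main :
    (∀ n i, i < (xw n).length → (xw n)[i]? = some (seq i)) ∧
    ∀ a : ℕ → ℕ, (∀ n i, i < (xw n).length → (xw n)[i]? = some (a i)) →
      ∀ k : ℕ, 2 ≤ k → (kernel k a).Infinite := by
  have hlen : ∀ n, n < (xw n).length := fun n => by
    have := y_len n
    rw [xw_eq]; simp; omega
  refine ⟨fun n i hi => ?_, fun a ha k hk hfin => ?_⟩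
  · have hs : seq i = (xw i)[i]'(hlen i) := by
      simp [seq, List.getD_eq_getElem?_getD, List.getElem?_eq_getElem (hlen i)]
    rw [hs]
    rcases le_total n i with h | h
    · obtain ⟨d, rfl⟩ := Nat.exists_eq_add_of_le h
      obtain ⟨t, ht⟩ := xw_prefix n d
      rw [← List.getElem?_eq_getElem (hlen _), ← ht, List.getElem?_append_left hi]
    · obtain ⟨d, rfl⟩ := Nat.exists_eq_add_of_le h
      obtain ⟨t, ht⟩ := xw_prefix i d
      rw [← List.getElem?_eq_getElem (hlen _), ← ht, List.getElem?_append_left (hlen _)]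
  · have h0 : ∀ n, Occ a n 0 := fun n i hi => by
      have := ha n i (by rw [xw_eq]; simp; omega)
      rw [xw_eq, List.getElem?_append_left hi] at this
      simpa using this
    have hocc : ∀ n P i, Occ a n P → i ≤ n → a (P + i) = a i := fun n P i h hi => by
      have hl := y_len n
      have h1 := h i (by omega)
      have h2 := h0 n i (by omega)
      rw [h1] at h2
      simpa using h2
    set K := hfin.toFinset.card with hK
    have hKe : K < k ^ K := Nat.lt_pow_self (by omega)
    obtain ⟨j, hj, j', hj', hne, heq⟩ := Finset.exists_ne_map_eq_of_card_lt_of_maps_to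
      (s := Finset.range (K + 1)) (t := hfin.toFinset) (by simp [hK])
      (f := fun j => fun n => a (k ^ K * n + j)) (fun j hj => by
        simp only [Finset.coe_range, Set.mem_Iio] at hj
        simp only [Set.Finite.coe_toFinset]
        exact ⟨K, j, by omega, rfl⟩)
    simp only [Finset.mem_range] at hj hj'
    have per : ∃ d, 0 < d ∧ ∀ m, a (m + d) = a m := by
      have gen : ∀ j j' : ℕ, j < j' → j' < K + 1 →
          (∀ n, a (k ^ K * n + j) = a (k ^ K * n + j')) → ∃ d, 0 < d ∧ ∀ m, a (m + d) = a m := by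
        intro j j' hlt hj' he
        refine ⟨j' - j, by omega, fun m => ?_⟩
        obtain ⟨P, hP, hPm⟩ := occ_res a h0 (k ^ K) (by omega) (j + (k ^ K - 1) * m) (m + (j' - j))
        have h1 : (P + m) % k ^ K = j := by
          have := hPm.add_right m
          unfold Nat.ModEq at this
          rw [this]
          obtain ⟨q', hq'⟩ : ∃ q', k ^ K = q' + 1 := ⟨k ^ K - 1, by omega⟩
          rw [hq', show j + (q' + 1 - 1) * m + m = (q' + 1) * m + j by
            simp only [Nat.add_sub_cancel]; ring, Nat.mul_add_mod]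
          exact Nat.mod_eq_of_lt (by omega)
        have h2 := Nat.div_add_mod (P + m) (k ^ K)
        rw [h1] at h2
        rw [← hocc _ P m hP (by omega), ← hocc _ P (m + (j' - j)) hP le_rfl, ← h2, he]
        congr 1; omega
      rcases lt_or_gt_of_ne hne with h | h
      · exact gen j j' h hj' (fun n => congrFun heq n)
      · exact gen j' j h hj (fun n => (congrFun heq n).symm)
    obtain ⟨d, hd, hper⟩ := per
    have hper' : ∀ t m, a (m + d * t) = a m := fun t => by
      induction t with
      | zero => simp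
      | succ t ih => intro m; rw [show m + d * (t + 1) = m + d * t + d by ring, hper, ih]
    obtain ⟨P, hP, hPm⟩ := occ_res a h0 d hd 1 0
    have e0 : a 0 = 1 := by have := ha 0 0 (by simp [xw]); simp [xw] at this; omega
    have e1 : a 1 = 2 := by have := ha 0 1 (by simp [xw]); simp [xw] at this; omega
    have eP : a P = 1 := by have := hocc 0 P 0 hP le_rfl; simpa [e0] using this
    have h3 : a (P % d) = a P := by
      conv_rhs => rw [← Nat.mod_add_div P d]
      rw [hper']
    have h4 : a (1 % d) = a 1 := by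
      conv_rhs => rw [← Nat.mod_add_div 1 d]
      rw [hper']
    unfold Nat.ModEq at hPm
    rw [hPm] at h3
    omega

/-- For every k ≥ 2 the k-kernel of the word is infinite: it is not k-automatic for any k. -/
theorem result : ∀ k : ℕ, 2 ≤ k → (kernel k seq).Infinite :=
  main.2 seq main.1

end Pool.Agent.Results.MP_ad6ded_lc.NotAutomatic
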